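import Pool.Agent.H545R3.Retr3

/-! # Retractions of `2^M` onto `C(M)` for cones over totally disconnected compact spaces

Both questions are answered in the affirmative. For every nonempty compact totally disconnected
metric space `Z` and `M` the cone over `Z`, the hyperspace `C(M)` of subcontinua is a retract of the
hyperspace `2^M` of nonempty closed sets, both with the Hausdorff metric. If `Z` has exactly one
limit point then `M` is not locally connected. -/

set_option autoImplicit false

open Set Topology Filter TopologicalSpace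

namespace Pool.Agent.Results.MP_85483e_gt.ConeRetraction

/-- The equivalence relation on `Z × [0,1]` which collapses `Z × {1}` to one point. -/
def coneSetoid (Z : Type) : Setoid (Z × unitInterval) where
  r a b := a = b ∨ (a.2 = 1 ∧ b.2 = 1)
  iseqv :=
    { refl := fun _ => Or.inl rfl
      symm := by
        rintro a b (h | ⟨h1, h2⟩)
        · exact Or.inl h.symm
        · exact Or.inr ⟨h2, h1⟩
      trans := by
        rintro a b c (rfl | ⟨h1, h2⟩) (rfl | ⟨h3, h4⟩)
        · exact Or.inl rfl
        · exact Or.inr ⟨h3, h4⟩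
        · exact Or.inr ⟨h1, h2⟩
        · exact Or.inr ⟨h1, h4⟩ }

/-- The cone `(Z × [0,1]) / (Z × {1})` over `Z`, with the quotient topology. -/
abbrev Cone (Z : Type) [TopologicalSpace Z] : Type := Quotient (coneSetoid Z)

/-- The hyperspace `C(M)` of subcontinua, a subspace of the hyperspace `2^M` of nonempty compact
sets with the Hausdorff metric. -/
abbrev Subcontinua (M : Type) [MetricSpace M] : Type :=
  {K : NonemptyCompacts M // IsConnected (K : Set M)}

/-- `C(M)` is a retract of `2^M`: there is a continuous map `r` of `2^M` to `C(M)` with `r K = K`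
for every subcontinuum `K`. -/
def HasHyperspaceRetraction (M : Type) [MetricSpace M] : Prop :=
  ∃ r : NonemptyCompacts M → Subcontinua M, Continuous r ∧ ∀ K : Subcontinua M, r K.1 = K

open Pool.Agent.H545R3.Retr

/-- the data of a cone from a homeomorphism with the quotient -/
noncomputable def data {Z M : Type} [TopologicalSpace Z] [MetricSpace M] (e : Z → ℝ)
    (he : Continuous e) (hinj : Function.Injective e) (φ : M ≃ₜ Cone Z) : ConeData Z M where
  e := e
  he := he
  hinj := hinj
  p := fun a => φ.symm (Quotient.mk (coneSetoid Z) (a.1, unitInterval.symm a.2))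
  hp := φ.symm.continuous.comp (continuous_quotient_mk'.comp
    (continuous_fst.prodMk (unitInterval.continuous_symm.comp continuous_snd)))
  hsurj := by
    intro x
    obtain ⟨⟨z, t⟩, h⟩ := Quotient.exists_rep (φ x)
    refine ⟨(z, unitInterval.symm t), ?_⟩
    rw [← φ.symm_apply_apply x, ← h]
    simp
  hker := by
    intro a b
    rw [φ.symm.injective.eq_iff, Quotient.eq]
    show ((a.1, unitInterval.symm a.2) = (b.1, unitInterval.symm b.2) ∨
      (unitInterval.symm a.2 = 1 ∧ unitInterval.symm b.2 = 1)) ↔ _
    rw [Prod.mk.injEq, unitInterval.symm_bijective.injective.eq_iff]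
    have h : ∀ t : unitInterval, unitInterval.symm t = 1 ↔ t = 0 := by
      intro t
      rw [← unitInterval.symm_zero, unitInterval.symm_bijective.injective.eq_iff]
    rw [h, h, Prod.ext_iff]

theorem retraction_of_data {Z M : Type} [TopologicalSpace Z] [CompactSpace Z] [T2Space Z]
    [TotallyDisconnectedSpace Z] [MetricSpace M] (C : ConeData Z M) :
    HasHyperspaceRetraction M := by
  refine ⟨fun A => ⟨C.ret A, C.connected_R _⟩, C.continuous_ret.subtype_mk _, ?_⟩
  intro K
  exact Subtype.ext (C.ret_fix K.1 K.2.isPreconnected)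

/-- A space with exactly one limit point is totally disconnected. -/
theorem totallyDisconnected_of_unique {Z : Type} [TopologicalSpace Z] [T1Space Z] {z0 : Z}
    (h1 : ∀ z, z ≠ z0 → IsOpen ({z} : Set Z)) : TotallyDisconnectedSpace Z := by
  refine ⟨fun s _ hs x hx y hy => ?_⟩
  by_contra hne
  wlog hx0 : x ≠ z0 generalizing x y
  · push Not at hx0
    exact this y hy x hx (Ne.symm hne) (fun h => hne (hx0.trans h.symm))
  obtain ⟨w, hw, hw1, hw2⟩ := hs {x} {x}ᶜ (h1 x hx0) isOpen_compl_singleton
    (by rw [union_compl_self]; exact subset_univ _) ⟨x, hx, rfl⟩ ⟨y, hy, fun h => hne h.symm⟩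
  exact hw2 hw1

theorem isolated_of_unique {Z : Type} [TopologicalSpace Z] {z0 : Z}
    (h : ∀ z : Z, (𝓝[≠] z).NeBot → z = z0) (z : Z) (hz : z ≠ z0) : IsOpen ({z} : Set Z) := by
  rw [isOpen_singleton_iff_punctured_nhds]
  by_contra hne
  exact hz (h z ⟨hne⟩)

/-- the cone embedded in the plane -/
def planeCone {Z : Type} (e : Z → ℝ) : Set (ℝ × ℝ) :=
  range (fun a : Z × unitInterval => (1 - (a.2 : ℝ), (1 - (a.2 : ℝ)) * e a.1))

/-- the cone is homeomorphic to a subset of the plane -/
theorem exists_homeo {Z : Type} [TopologicalSpace Z] [CompactSpace Z] (e : Z → ℝ)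
    (he : Continuous e) (hinj : Function.Injective e) :
    Nonempty (↥(planeCone e) ≃ₜ Cone Z) := by
  let f : Z × unitInterval → ↥(planeCone e) :=
    fun a => ⟨(1 - (a.2 : ℝ), (1 - (a.2 : ℝ)) * e a.1), ⟨a, rfl⟩⟩
  have hf : Continuous f := by
    refine Continuous.subtype_mk ?_ _
    fun_prop
  have hker : ∀ a b : Z × unitInterval, f a = f b ↔ (coneSetoid Z).r a b := by
    rintro ⟨z, s⟩ ⟨w, t⟩
    constructor
    · intro h
      have h1 : (1 - (s : ℝ), (1 - (s : ℝ)) * e z) = (1 - (t : ℝ), (1 - (t : ℝ)) * e w) :=
        congrArg Subtype.val h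
      rw [Prod.mk.injEq] at h1
      have hst : s = t := Subtype.ext (by linarith [h1.1])
      subst hst
      by_cases hs : s = 1
      · exact Or.inr ⟨hs, hs⟩
      · left
        have hne : 1 - (s : ℝ) ≠ 0 := by
          intro h0
          exact hs (Subtype.ext (by
            show (s : ℝ) = 1
            linarith))
        rw [hinj (mul_left_cancel₀ hne h1.2)]
    · rintro (h | ⟨h1, h2⟩)
      · rw [h]
      · simp only at h1 h2
        subst h1
        subst h2
        apply Subtype.ext
        simp [f]
  have hlift : Continuous (Quotient.lift f (fun a b h => (hker a b).2 h)) :=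
    hf.quotient_lift _
  have hbij : Function.Bijective (Quotient.lift f (fun a b h => (hker a b).2 h)) := by
    constructor
    · intro x y
      obtain ⟨a, rfl⟩ := Quotient.exists_rep x
      obtain ⟨b, rfl⟩ := Quotient.exists_rep y
      intro h
      exact Quotient.sound ((hker a b).1 h)
    · rintro ⟨_, ⟨a, rfl⟩⟩
      exact ⟨Quotient.mk _ a, rfl⟩
  exact ⟨(Continuous.homeoOfEquivCompactToT2 (f := Equiv.ofBijective _ hbij) hlift).symm⟩

/-- the space `{0} ∪ {1/n}` -/
abbrev Seq : Type := ↥(insert (0 : ℝ) (range fun n : ℕ => 1 / ((n : ℝ) + 1)))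

theorem seq_limit : ∃! z : Seq, (𝓝[≠] z).NeBot := by
  have hlim : Tendsto (fun n : ℕ => 1 / ((n : ℝ) + 1)) atTop (𝓝 0) :=
    tendsto_one_div_add_atTop_nhds_zero_nat
  refine ⟨⟨0, mem_insert _ _⟩, ?_, ?_⟩
  · show (𝓝[≠] (⟨0, mem_insert _ _⟩ : Seq)).NeBot
    have ht : Tendsto (fun n : ℕ => (⟨1 / ((n : ℝ) + 1), mem_insert_of_mem _ ⟨n, rfl⟩⟩ : Seq)) atTop
        (𝓝[≠] (⟨0, mem_insert _ _⟩ : Seq)) := by
      rw [tendsto_nhdsWithin_iff]
      refine ⟨?_, Eventually.of_forall fun n h => ?_⟩
      · rw [tendsto_subtype_rng]
        exact hlim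
      · have : 1 / ((n : ℝ) + 1) = 0 := congrArg Subtype.val h
        have hpos : 0 < 1 / ((n : ℝ) + 1) := by positivity
        linarith
    exact ht.neBot
  · rintro ⟨z, hz⟩ hne
    by_contra h
    have hz0 : z ≠ 0 := fun h0 => h (Subtype.ext h0)
    obtain ⟨n, rfl⟩ := hz.resolve_left hz0
    -- the point is isolated
    have hiso : IsOpen ({(⟨1 / ((n : ℝ) + 1), hz⟩ : Seq)} : Set Seq) := by
      let a : ℝ := 1 / ((n : ℝ) + 2)
      let b : ℝ := if n = 0 then 2 else 1 / (n : ℝ)
      have hset : ({(⟨1 / ((n : ℝ) + 1), hz⟩ : Seq)} : Set Seq) = Subtype.val ⁻¹' Ioo a b := by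
        ext ⟨w, hw⟩
        simp only [mem_singleton_iff, mem_preimage, Subtype.mk.injEq]
        constructor
        · rintro rfl
          refine ⟨?_, ?_⟩
          · exact one_div_lt_one_div_of_lt (by positivity) (by linarith)
          · simp only [b]
            split_ifs with hn
            · subst hn; norm_num
            · have : (0 : ℝ) < n := by exact_mod_cast Nat.pos_of_ne_zero hn
              exact one_div_lt_one_div_of_lt this (by linarith)
        · rintro ⟨h1, h2⟩
          have ha : 0 < a := by positivity
          rcases hw with rfl | ⟨m, rfl⟩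
          · linarith
          · have hm1 : m ≤ n := by
              by_contra hlt
              push Not at hlt
              have : (n : ℝ) + 1 ≤ m := by exact_mod_cast hlt
              have : 1 / ((m : ℝ) + 1) ≤ a := one_div_le_one_div_of_le (by positivity) (by linarith)
              linarith
            have hm2 : n ≤ m := by
              by_contra hlt
              push Not at hlt
              have hn : n ≠ 0 := by omega
              simp only [b, if_neg hn] at h2
              have h3 : (m : ℝ) + 1 ≤ n := by exact_mod_cast hlt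
              have : 1 / (n : ℝ) ≤ 1 / ((m : ℝ) + 1) :=
                one_div_le_one_div_of_le (by positivity) h3
              linarith
            rw [le_antisymm hm1 hm2]
      rw [hset]
      exact isOpen_Ioo.preimage continuous_subtype_val
    exact hne.ne ((isOpen_singleton_iff_punctured_nhds _).1 hiso)

/-- **Answers to both questions.** (1) For every nonempty compact totally disconnected metric space
`Z` and every metric space `M` homeomorphic to the cone over `Z`, `C(M)` is a retract of `2^M`.
(2) In particular this holds if `Z` is a compact metric space with exactly one limit point, and then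
`M` is a continuum which is not locally connected. (3) So there is a continuum which is not locally
connected and for which a retraction of `2^M` onto `C(M)` exists. -/
theorem result :
    (∀ (Z M : Type) [MetricSpace Z] [CompactSpace Z] [Nonempty Z] [TotallyDisconnectedSpace Z]
      [MetricSpace M], Nonempty (M ≃ₜ Cone Z) → HasHyperspaceRetraction M) ∧
    (∀ (Z M : Type) [MetricSpace Z] [CompactSpace Z] [MetricSpace M],
      (∃! z : Z, (𝓝[≠] z).NeBot) → Nonempty (M ≃ₜ Cone Z) →
      CompactSpace M ∧ ConnectedSpace M ∧ ¬ LocallyConnectedSpace M ∧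
        HasHyperspaceRetraction M) ∧
    (∃ (M : Type) (_ : MetricSpace M), CompactSpace M ∧ ConnectedSpace M ∧
      ¬ LocallyConnectedSpace M ∧ HasHyperspaceRetraction M) := by
  have h2 : ∀ (Z M : Type) [MetricSpace Z] [CompactSpace Z] [MetricSpace M],
      (∃! z : Z, (𝓝[≠] z).NeBot) → Nonempty (M ≃ₜ Cone Z) →
      CompactSpace M ∧ ConnectedSpace M ∧ ¬ LocallyConnectedSpace M ∧
        HasHyperspaceRetraction M := by
    intro Z M _ _ _ hz ⟨φ⟩
    obtain ⟨z0, hz0, huniq⟩ := hz
    have hiso := isolated_of_unique (z0 := z0) huniq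
    haveI := totallyDisconnected_of_unique hiso
    haveI : Nonempty Z := ⟨z0⟩
    obtain ⟨e, he, hinj⟩ := exists_injection Z
    let C := data e he hinj φ
    exact ⟨C.compactSpace, C.connectedSpace, C.not_locallyConnected z0 hz0 hiso,
      retraction_of_data C⟩
  refine ⟨?_, h2, ?_⟩
  · intro Z M _ _ _ _ _ ⟨φ⟩
    obtain ⟨e, he, hinj⟩ := exists_injection Z
    exact retraction_of_data (data e he hinj φ)
  · haveI : CompactSpace Seq := isCompact_iff_compactSpace.mp
      (tendsto_one_div_add_atTop_nhds_zero_nat (𝕜 := ℝ)).isCompact_insert_range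
    exact ⟨↥(planeCone (fun z : Seq => (z : ℝ))), inferInstance, h2 Seq _ seq_limit
      (exists_homeo _ continuous_subtype_val Subtype.val_injective)⟩

end Pool.Agent.Results.MP_85483e_gt.ConeRetraction
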